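import Pool.Agent.X229.EternalPrism

namespace Pool.Agent.Results.MP_349597_co.PrismCounterexample

open Pool.Agent.X229.EternalPrism

/-- **Main theorem.** There is a graph on 12 vertices whose clique cover number equals its
eternal domination number, while for the prism over it the eternal domination number is
smaller than the clique cover number. (The graph is the complement of the Groetzsch graph with
one pendant vertex attached.) -/
theorem result : ∃ G : SimpleGraph (Fin 12), theta G = gammaInf G ∧
    gammaInf (SimpleGraph.boxProd G (⊤ : SimpleGraph (Fin 2))) <
      theta (SimpleGraph.boxProd G (⊤ : SimpleGraph (Fin 2))) := by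
  refine ⟨G, ?_, ?_⟩
  · rw [theta_G, gamma_G]
  · exact lt_of_le_of_lt gamma_P (lt_of_lt_of_le (by norm_num) theta_P)

end Pool.Agent.Results.MP_349597_co.PrismCounterexample
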